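import Pool.Agent.P8H55.EK.Dis
import Pool.Agent.P8H15.EK.Stm2

/-!
# Project EK, package DI2: an exponential moment of the number of the primes whose square divides `4 a³ + 27 b²`
-/

set_option autoImplicit false
set_option linter.all false

open Polynomial NumberField IsDedekindDomain
open scoped Classical

namespace Pool.Agent.P8H53.EK

open Pool.Agent.N783.PF (Bd)
open Pool.Agent.P8H15.EK
open Pool.Agent.P8H55.EK (Pt cnt nrm_pos fin_mem fin_sqd)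

/-- among the subsets of a given cardinality one has a small product -/
theorem prod_sel {α : Type*} (f : α → ℝ) (hf : ∀ a, 1 ≤ f a) {x : ℝ} (hx : 0 ≤ x) (l : ℕ) :
    ∀ (k : ℕ) (S : Finset α), k * l ≤ S.card → (∀ A, A ⊆ S → A.card = l → x ≤ ∏ v ∈ A, f v) →
      x ^ k ≤ ∏ v ∈ S, f v := by
  intro k
  induction k with
  | zero =>
    intro S _ _
    rw [pow_zero]
    exact Finset.one_le_prod fun v _ => hf v
  | succ k ih =>
    intro S hS h
    rw [Nat.succ_mul] at hS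
    obtain ⟨A, hA, hl⟩ := Finset.exists_subset_card_eq (show l ≤ S.card by omega)
    have h1 : k * l ≤ (S \ A).card := by
      rw [Finset.card_sdiff_of_subset hA, hl]
      omega
    have h2 := ih (S \ A) h1 fun A' hA' hl' => h A' (hA'.trans Finset.sdiff_subset) hl'
    have h3 := h A hA hl
    rw [pow_succ, ← Finset.prod_sdiff hA]
    exact mul_le_mul h2 h3 hx (le_trans (pow_nonneg hx _) h2)

variable {F : Type} [Field F] [NumberField F]

/-- the norm of a prime -/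
noncomputable def nv (v : HeightOneSpectrum (𝓞 F)) : ℝ := Ideal.absNorm v.asIdeal

theorem nv_ge (v : HeightOneSpectrum (𝓞 F)) : 1 ≤ nv v := by
  unfold nv
  have h : Ideal.absNorm v.asIdeal ≠ 0 := fun h => v.ne_bot (Ideal.absNorm_eq_zero_iff.1 h)
  exact_mod_cast Nat.one_le_iff_ne_zero.2 h

theorem nv_pos (v : HeightOneSpectrum (𝓞 F)) : 0 < nv v := lt_of_lt_of_le one_pos (nv_ge v)

/-- products of norms -/
noncomputable def NA (A : Finset (HeightOneSpectrum (𝓞 F))) : ℝ := ∏ v ∈ A, nv v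

/-- products of squares of norms -/
noncomputable def PA (A : Finset (HeightOneSpectrum (𝓞 F))) : ℝ := ∏ v ∈ A, nv v ^ 2

theorem NA_ge (A : Finset (HeightOneSpectrum (𝓞 F))) : 1 ≤ NA A := Finset.one_le_prod fun v _ => nv_ge v

theorem PA_eq (A : Finset (HeightOneSpectrum (𝓞 F))) : PA A = NA A ^ 2 := Finset.prod_pow _ _ _

theorem PA_ge (A : Finset (HeightOneSpectrum (𝓞 F))) : 1 ≤ PA A := by
  rw [PA_eq]
  exact one_le_pow₀ (NA_ge A)

theorem PA_split {A A₁ : Finset (HeightOneSpectrum (𝓞 F))} (h : A₁ ⊆ A) : NA A₁ * (NA A₁ * PA (A \ A₁)) = PA A := by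
  have h1 : PA (A \ A₁) * PA A₁ = PA A := Finset.prod_sdiff h
  rw [← h1, PA_eq A₁]
  ring

theorem mem_prod {x : 𝓞 F} (A : Finset (HeightOneSpectrum (𝓞 F))) (e : HeightOneSpectrum (𝓞 F) → ℕ)
    (h : ∀ v ∈ A, x ∈ v.asIdeal ^ e v) : x ∈ ∏ v ∈ A, v.asIdeal ^ e v := by
  rw [← Ideal.dvd_span_singleton]
  refine Finset.prod_dvd_of_coprime ?_ fun v hv => ?_
  · intro v _ w _ hvw
    have hne : v.asIdeal ≠ w.asIdeal := fun h => hvw (HeightOneSpectrum.ext h)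
    have := v.isMaximal
    have := w.isMaximal
    exact IsCoprime.pow (Ideal.isCoprime_of_isMaximal hne)
  · rw [Ideal.dvd_span_singleton]
    exact h v hv

theorem norm_prod (A : Finset (HeightOneSpectrum (𝓞 F))) (e : HeightOneSpectrum (𝓞 F) → ℕ) :
    (Ideal.absNorm (∏ v ∈ A, v.asIdeal ^ e v) : ℝ) = ∏ v ∈ A, nv v ^ e v := by
  rw [map_prod, Nat.cast_prod]
  refine Finset.prod_congr rfl fun v _ => ?_
  rw [map_pow, Nat.cast_pow]
  rfl

theorem prod_ne_bot (A : Finset (HeightOneSpectrum (𝓞 F))) (e : HeightOneSpectrum (𝓞 F) → ℕ) :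
    ∏ v ∈ A, v.asIdeal ^ e v ≠ ⊥ := by
  rw [← Ideal.zero_eq_bot]
  exact Finset.prod_ne_zero_iff.2 fun v _ => pow_ne_zero _ v.ne_bot

/-- the product of the primes is bounded by the discriminant -/
theorem disc {a b : 𝓞 F} (h : 4 * a ^ 3 + 27 * b ^ 2 ≠ 0) (B : ℕ) (ha : Bd (a : F) ((B : ℝ) ^ 2))
    (hb : Bd (b : F) ((B : ℝ) ^ 3)) (S : Finset (HeightOneSpectrum (𝓞 F))) (hS : ∀ v ∈ S, v ∈ SqD a b) :
    PA S ≤ (31 * (B : ℝ) ^ 6) ^ Module.finrank ℚ F := by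
  have h1 : 4 * a ^ 3 + 27 * b ^ 2 ∈ ∏ v ∈ S, v.asIdeal ^ 2 := mem_prod S (fun _ => 2) fun v hv => hS v hv
  have h2 : Bd ((4 * a ^ 3 + 27 * b ^ 2 : 𝓞 F) : F) (31 * (B : ℝ) ^ 6) := by
    intro σ
    have e : ((4 * a ^ 3 + 27 * b ^ 2 : 𝓞 F) : F) = 4 * (a : F) ^ 3 + 27 * (b : F) ^ 2 := by
      have e4 : algebraMap (𝓞 F) F 4 = 4 := map_ofNat _ 4
      have e27 : algebraMap (𝓞 F) F 27 = 27 := map_ofNat _ 27
      change algebraMap (𝓞 F) F _ = _
      rw [map_add, map_mul, map_mul, map_pow, map_pow, e4, e27]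
    rw [e, map_add, map_mul, map_mul, map_pow, map_pow, map_ofNat, map_ofNat]
    refine (norm_add_le _ _).trans ?_
    rw [norm_mul, norm_mul, norm_pow, norm_pow]
    have e1 : ‖(4 : ℂ)‖ = 4 := by norm_num
    have e2 : ‖(27 : ℂ)‖ = 27 := by norm_num
    rw [e1, e2]
    have h3 : ‖σ (a : F)‖ ^ 3 ≤ ((B : ℝ) ^ 2) ^ 3 := pow_le_pow_left₀ (norm_nonneg _) (ha σ) 3
    have h4 : ‖σ (b : F)‖ ^ 2 ≤ ((B : ℝ) ^ 3) ^ 2 := pow_le_pow_left₀ (norm_nonneg _) (hb σ) 2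
    nlinarith
  have h3 := (Pool.Agent.N490.PF.norm_ge h1 h h2).2
  rw [norm_prod S (fun _ => 2)] at h3
  exact h3

/-- the selection -/
theorem sel {a b : 𝓞 F} (h : 4 * a ^ 3 + 27 * b ^ 2 ≠ 0) (B : ℕ) (hB : 32 ≤ B) (ha : Bd (a : F) ((B : ℝ) ^ 2))
    (hb : Bd (b : F) ((B : ℝ) ^ 3)) (S : Finset (HeightOneSpectrum (𝓞 F))) (hS : ∀ v ∈ S, v ∈ SqD a b) :
    ∃ A, A ⊆ S ∧ A.card = S.card / 7 ∧ PA A ≤ (B : ℝ) ^ Module.finrank ℚ F := by
  by_contra hno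
  push Not at hno
  have hB' : (32 : ℝ) ≤ B := by exact_mod_cast hB
  have h1 := prod_sel (fun v : HeightOneSpectrum (𝓞 F) => nv v ^ 2) (fun v => one_le_pow₀ (nv_ge v))
    (x := (B : ℝ) ^ Module.finrank ℚ F) (by positivity) (S.card / 7) 7 S (Nat.mul_div_le _ _)
    fun A hA hl => (hno A hA hl).le
  have h2 := h1.trans (disc h B ha hb S hS)
  have hd : Module.finrank ℚ F ≠ 0 := Module.finrank_pos.ne'
  have h3 : ((B : ℝ) ^ 7) ^ Module.finrank ℚ F ≤ (31 * (B : ℝ) ^ 6) ^ Module.finrank ℚ F := by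
    refine le_trans (le_of_eq ?_) h2
    rw [← pow_mul, ← pow_mul, mul_comm]
  have h4 : (B : ℝ) ^ 7 ≤ 31 * (B : ℝ) ^ 6 := (pow_le_pow_iff_left₀ (by positivity) (by positivity) hd).1 h3
  have h5 : (0 : ℝ) < (B : ℝ) ^ 6 := by positivity
  have h6 : (B : ℝ) ^ 7 = B * (B : ℝ) ^ 6 := by ring
  rw [h6] at h4
  have h7 : (B : ℝ) ≤ 31 := le_of_mul_le_mul_right h4 h5
  linarith

/-! ### counting -/

theorem two_three {v : HeightOneSpectrum (𝓞 F)} (h6 : (6 : 𝓞 F) ∉ v.asIdeal) :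
    (2 : 𝓞 F) ∉ v.asIdeal ∧ (3 : 𝓞 F) ∉ v.asIdeal := by
  constructor
  · intro h
    apply h6
    have e : (6 : 𝓞 F) = 3 * 2 := by norm_num
    rw [e]
    exact Ideal.mul_mem_left _ _ h
  · intro h
    apply h6
    have e : (6 : 𝓞 F) = 2 * 3 := by norm_num
    rw [e]
    exact Ideal.mul_mem_left _ _ h

theorem bmem {v : HeightOneSpectrum (𝓞 F)} (h6 : (6 : 𝓞 F) ∉ v.asIdeal) {a b : 𝓞 F} (ha : a ∈ v.asIdeal)
    (h : v ∈ SqD a b) : b ∈ v.asIdeal := by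
  have hv := v.isPrime
  have h3 := (two_three h6).2
  have h4 : 4 * a ^ 3 + 27 * b ^ 2 ∈ v.asIdeal := Ideal.pow_le_self two_ne_zero h
  have h5 : 4 * a ^ 3 ∈ v.asIdeal := Ideal.mul_mem_left _ _ (Ideal.pow_mem_of_mem _ ha 3 (by norm_num))
  have h7 : 3 * (3 * (3 * b ^ 2)) ∈ v.asIdeal := by
    have e : 3 * (3 * (3 * b ^ 2)) = (4 * a ^ 3 + 27 * b ^ 2) - 4 * a ^ 3 := by ring
    rw [e]
    exact Ideal.sub_mem _ h4 h5
  have h8 : ∀ x : 𝓞 F, 3 * x ∈ v.asIdeal → x ∈ v.asIdeal := fun x hx => (hv.mem_or_mem hx).resolve_left h3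
  exact hv.mem_of_pow_mem 2 (h8 _ (h8 _ (h8 _ h7)))

theorem dich {v : HeightOneSpectrum (𝓞 F)} (h6 : (6 : 𝓞 F) ∉ v.asIdeal) {a b b₀ : 𝓞 F} (ha : a ∉ v.asIdeal)
    (h1 : v ∈ SqD a b) (h1' : v ∈ SqD a b₀) : b - b₀ ∈ v.asIdeal ^ 2 ∨ b - (-b₀) ∈ v.asIdeal ^ 2 := by
  have hv := v.isPrime
  obtain ⟨h2, h3⟩ := two_three h6
  change 4 * a ^ 3 + 27 * b ^ 2 ∈ v.asIdeal ^ 2 at h1
  change 4 * a ^ 3 + 27 * b₀ ^ 2 ∈ v.asIdeal ^ 2 at h1'
  have hb : b ∉ v.asIdeal := by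
    intro hbv
    have h4 : 4 * a ^ 3 + 27 * b ^ 2 ∈ v.asIdeal := Ideal.pow_le_self two_ne_zero h1
    have h5 : 4 * a ^ 3 ∈ v.asIdeal := by
      have h6 : 27 * b ^ 2 ∈ v.asIdeal :=
        Ideal.mul_mem_left _ _ (Ideal.pow_mem_of_mem _ hbv 2 two_pos)
      have e : 4 * a ^ 3 = (4 * a ^ 3 + 27 * b ^ 2) - 27 * b ^ 2 := by ring
      rw [e]
      exact Ideal.sub_mem _ h4 h6
    rcases hv.mem_or_mem h5 with h6 | h6
    · have e : (4 : 𝓞 F) = 2 * 2 := by norm_num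
      rw [e] at h6
      rcases hv.mem_or_mem h6 with h7 | h7 <;> exact h2 h7
    · exact ha (hv.mem_of_pow_mem 3 h6)
  have h4 : 3 * (3 * (3 * ((b - b₀) * (b - (-b₀))))) ∈ v.asIdeal ^ 2 := by
    have e : 3 * (3 * (3 * ((b - b₀) * (b - (-b₀))))) =
        (4 * a ^ 3 + 27 * b ^ 2) - (4 * a ^ 3 + 27 * b₀ ^ 2) := by ring
    rw [e]
    exact Ideal.sub_mem _ h1 h1'
  have h5 : ∀ x : 𝓞 F, 3 * x ∈ v.asIdeal ^ 2 → x ∈ v.asIdeal ^ 2 := fun x hx =>
    (Ideal.IsPrime.mul_mem_pow v.asIdeal hx).resolve_left h3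
  have h6 := h5 _ (h5 _ (h5 _ h4))
  by_cases h7 : b - b₀ ∈ v.asIdeal
  · left
    rw [mul_comm] at h6
    refine (Ideal.IsPrime.mul_mem_pow v.asIdeal h6).resolve_left fun h8 => ?_
    have h9 : 2 * b ∈ v.asIdeal := by
      have e : 2 * b = (b - b₀) + (b - (-b₀)) := by ring
      rw [e]
      exact Ideal.add_mem _ h7 h8
    rcases hv.mem_or_mem h9 with h | h
    · exact h2 h
    · exact hb h
  · right
    exact (Ideal.IsPrime.mul_mem_pow v.asIdeal h6).resolve_left h7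

/-- the second coordinates -/
theorem fib {C : ℝ} (hC : 0 < C) (hP : Pt F C) (A₁ A₂ : Finset (HeightOneSpectrum (𝓞 F))) (hdis : Disjoint A₁ A₂)
    (h6 : ∀ v ∈ A₂, (6 : 𝓞 F) ∉ v.asIdeal) (a : 𝓞 F) (ha : ∀ v ∈ A₂, a ∉ v.asIdeal) (s : Finset (𝓞 F)) (R : ℝ)
    (hR : 0 ≤ R) (hN : NA A₁ * PA A₂ ≤ R ^ Module.finrank ℚ F)
    (hs : ∀ b ∈ s, Bd (b : F) R ∧ (∀ v ∈ A₁, b ∈ v.asIdeal) ∧ ∀ v ∈ A₂, v ∈ SqD a b) :
    (s.card : ℝ) ≤ 2 ^ A₂.card * (2 * C * (R ^ Module.finrank ℚ F / (NA A₁ * PA A₂))) := by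
  have hNA : 0 < NA A₁ := lt_of_lt_of_le one_pos (NA_ge _)
  have hPA : 0 < PA A₂ := lt_of_lt_of_le one_pos (PA_ge _)
  have hpos : 0 ≤ 2 * C * (R ^ Module.finrank ℚ F / (NA A₁ * PA A₂)) := by positivity
  rcases s.eq_empty_or_nonempty with rfl | ⟨b₀, hb₀⟩
  · rw [Finset.card_empty, Nat.cast_zero]
    positivity
  obtain ⟨e, he⟩ : ∃ e : HeightOneSpectrum (𝓞 F) → ℕ, e = fun v => if v ∈ A₁ then 1 else 2 := ⟨_, rfl⟩
  have he1 : ∀ v ∈ A₁, e v = 1 := fun v hv => by rw [he]; exact if_pos hv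
  have he2 : ∀ v ∈ A₂, e v = 2 := fun v hv => by
    rw [he]
    exact if_neg fun h => Finset.disjoint_left.1 hdis h hv
  have hK : (Ideal.absNorm (∏ v ∈ A₁ ∪ A₂, v.asIdeal ^ e v) : ℝ) = NA A₁ * PA A₂ := by
    rw [norm_prod, Finset.prod_union hdis]
    congr 1
    · exact Finset.prod_congr rfl fun v hv => by rw [he1 v hv, pow_one]
    · exact Finset.prod_congr rfl fun v hv => by rw [he2 v hv]
  obtain ⟨g, hg⟩ : ∃ g : 𝓞 F → Finset (HeightOneSpectrum (𝓞 F)),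
      g = fun b => A₂.filter fun v => b - b₀ ∈ v.asIdeal ^ 2 := ⟨_, rfl⟩
  have hgm : ∀ b ∈ s, g b ∈ A₂.powerset := by
    intro b _
    rw [hg, Finset.mem_powerset]
    exact Finset.filter_subset _ _
  have hcard := Finset.card_eq_sum_card_fiberwise (f := g) (s := s) (t := A₂.powerset) (fun b hb => hgm b hb)
  have hone : ∀ D ∈ A₂.powerset, (((s.filter fun b => g b = D).card : ℕ) : ℝ) ≤
      2 * C * (R ^ Module.finrank ℚ F / (NA A₁ * PA A₂)) := by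
    intro D _
    rcases (s.filter fun b => g b = D).eq_empty_or_nonempty with h0 | ⟨b₁, hb₁⟩
    · rw [h0, Finset.card_empty, Nat.cast_zero]
      exact hpos
    · obtain ⟨hb₁s, hb₁D⟩ := Finset.mem_filter.1 hb₁
      rw [← hK]
      refine cnt hC hP _ _ b₁ R (prod_ne_bot _ _) hR (by rw [hK]; exact hN) fun b hb => ?_
      obtain ⟨hbs, hbD⟩ := Finset.mem_filter.1 hb
      refine ⟨mem_prod _ _ fun v hv => ?_, (hs b hbs).1⟩
      rcases Finset.mem_union.1 hv with hv | hv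
      · rw [he1 v hv, pow_one]
        exact Ideal.sub_mem _ ((hs b hbs).2.1 v hv) ((hs b₁ hb₁s).2.1 v hv)
      · rw [he2 v hv]
        by_cases hvD : v ∈ D
        · have i1 : v ∈ g b := by rw [hbD]; exact hvD
          have i2 : v ∈ g b₁ := by rw [hb₁D]; exact hvD
          rw [hg] at i1 i2
          have j1 := (Finset.mem_filter.1 i1).2
          have j2 := (Finset.mem_filter.1 i2).2
          have e1 : b - b₁ = (b - b₀) - (b₁ - b₀) := by ring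
          rw [e1]
          exact Ideal.sub_mem _ j1 j2
        · have i1 : b - b₀ ∉ v.asIdeal ^ 2 := fun h => hvD (by
            rw [← hbD, hg]
            exact Finset.mem_filter.2 ⟨hv, h⟩)
          have i2 : b₁ - b₀ ∉ v.asIdeal ^ 2 := fun h => hvD (by
            rw [← hb₁D, hg]
            exact Finset.mem_filter.2 ⟨hv, h⟩)
          have j1 := (dich (h6 v hv) (ha v hv) ((hs b hbs).2.2 v hv) ((hs b₀ hb₀).2.2 v hv)).resolve_left i1
          have j2 := (dich (h6 v hv) (ha v hv) ((hs b₁ hb₁s).2.2 v hv) ((hs b₀ hb₀).2.2 v hv)).resolve_left i2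
          have e1 : b - b₁ = (b - (-b₀)) - (b₁ - (-b₀)) := by ring
          rw [e1]
          exact Ideal.sub_mem _ j1 j2
  have h1 : (s.card : ℝ) = ∑ D ∈ A₂.powerset, (((s.filter fun b => g b = D).card : ℕ) : ℝ) := by
    rw [hcard]
    push_cast
    rfl
  rw [h1]
  refine (Finset.sum_le_card_nsmul _ _ _ hone).trans ?_
  rw [Finset.card_powerset, nsmul_eq_mul]
  push_cast
  exact le_refl _

/-- the pairs for a set of primes -/
theorem cntA {C : ℝ} (hC : 0 < C) (hP : Pt F C) (A : Finset (HeightOneSpectrum (𝓞 F)))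
    (h6 : ∀ v ∈ A, (6 : 𝓞 F) ∉ v.asIdeal) (B : ℕ) (hB : 1 ≤ B) (hN : PA A ≤ (B : ℝ) ^ Module.finrank ℚ F)
    (T : Finset (𝓞 F × 𝓞 F)) (hT : ∀ p ∈ T, Bd (p.1 : F) ((B : ℝ) ^ 2) ∧
      Bd (p.2 : F) ((B : ℝ) ^ 3) ∧ ∀ v ∈ A, v ∈ SqD p.1 p.2) :
    (T.card : ℝ) ≤ 4 ^ A.card * (4 * C ^ 2 * (B : ℝ) ^ (5 * Module.finrank ℚ F) / PA A) := by
  have hB' : (1 : ℝ) ≤ B := by exact_mod_cast hB
  have hPA : 0 < PA A := lt_of_lt_of_le one_pos (PA_ge _)
  have hBd : 1 ≤ (B : ℝ) ^ Module.finrank ℚ F := one_le_pow₀ hB'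
  have e2 : (B : ℝ) ^ Module.finrank ℚ F ≤ ((B : ℝ) ^ 2) ^ Module.finrank ℚ F :=
    pow_le_pow_left₀ (by positivity) (by nlinarith) _
  have e3 : (B : ℝ) ^ Module.finrank ℚ F ≤ ((B : ℝ) ^ 3) ^ Module.finrank ℚ F :=
    pow_le_pow_left₀ (by positivity) (le_self_pow₀ hB' (by norm_num)) _
  obtain ⟨g, hg⟩ : ∃ g : 𝓞 F × 𝓞 F → Finset (HeightOneSpectrum (𝓞 F)),
      g = fun p => A.filter fun v => p.1 ∈ v.asIdeal := ⟨_, rfl⟩
  have hgm : ∀ p ∈ T, g p ∈ A.powerset := by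
    intro p _
    rw [hg, Finset.mem_powerset]
    exact Finset.filter_subset _ _
  have hcard := Finset.card_eq_sum_card_fiberwise (f := g) (s := T) (t := A.powerset) (fun b hb => hgm b hb)
  have hone : ∀ A₁ ∈ A.powerset, (((T.filter fun p => g p = A₁).card : ℕ) : ℝ) ≤
      2 ^ A.card * (4 * C ^ 2 * (B : ℝ) ^ (5 * Module.finrank ℚ F) / PA A) := by
    intro A₁ hA₁
    rw [Finset.mem_powerset] at hA₁
    obtain ⟨T', hT'⟩ : ∃ T' : Finset (𝓞 F × 𝓞 F), T' = T.filter fun p => g p = A₁ := ⟨_, rfl⟩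
    rw [← hT']
    have hT1 : ∀ p ∈ T', p ∈ T ∧ (∀ v ∈ A₁, p.1 ∈ v.asIdeal) ∧ ∀ v ∈ A \ A₁, p.1 ∉ v.asIdeal := by
      intro p hp
      rw [hT', Finset.mem_filter] at hp
      refine ⟨hp.1, fun v hv => ?_, fun v hv => ?_⟩
      · rw [← hp.2, hg] at hv
        exact (Finset.mem_filter.1 hv).2
      · rw [Finset.mem_sdiff] at hv
        intro h
        apply hv.2
        rw [← hp.2, hg]
        exact Finset.mem_filter.2 ⟨hv.1, h⟩
    have hNA : 0 < NA A₁ := lt_of_lt_of_le one_pos (NA_ge _)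
    have hPA2 : 0 < PA (A \ A₁) := lt_of_lt_of_le one_pos (PA_ge _)
    have hsplit := PA_split hA₁
    have hle2 : NA A₁ * PA (A \ A₁) ≤ PA A := by
      rw [← hsplit]
      exact le_mul_of_one_le_left (by positivity) (NA_ge _)
    have hle1 : NA A₁ ≤ PA A := by
      refine le_trans ?_ hle2
      exact le_mul_of_one_le_right hNA.le (PA_ge _)
    have hc1 : T'.card = ∑ a ∈ T'.image Prod.fst, (T'.filter fun p => p.1 = a).card :=
      Finset.card_eq_sum_card_image Prod.fst T'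
    have hfib : ∀ a, (T'.filter fun p => p.1 = a).card =
        ((T'.filter fun p => p.1 = a).image Prod.snd).card := by
      intro a
      rw [Finset.card_image_of_injOn]
      intro p hp q hq' hpq
      have h1 := (Finset.mem_filter.1 (Finset.mem_coe.1 hp)).2
      have h2 := (Finset.mem_filter.1 (Finset.mem_coe.1 hq')).2
      exact Prod.ext (h1.trans h2.symm) hpq
    have hfst : ((T'.image Prod.fst).card : ℝ) ≤ 2 * C * (((B : ℝ) ^ 2) ^ Module.finrank ℚ F / NA A₁) := by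
      have hK : (Ideal.absNorm (∏ v ∈ A₁, v.asIdeal ^ (fun _ => 1 : HeightOneSpectrum (𝓞 F) → ℕ) v) : ℝ) = NA A₁ := by
        rw [norm_prod]
        exact Finset.prod_congr rfl fun v _ => pow_one _
      rw [← hK]
      refine cnt hC hP _ _ 0 _ (prod_ne_bot _ _) (by positivity) (by rw [hK]; exact hle1.trans (hN.trans e2))
        fun a ha => ?_
      obtain ⟨p, hp, rfl⟩ := Finset.mem_image.1 ha
      obtain ⟨i1, i2, i3⟩ := hT1 p hp
      refine ⟨mem_prod _ _ fun v hv => ?_, (hT p i1).1⟩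
      rw [sub_zero, pow_one]
      exact i2 v hv
    have hsnd : ∀ a ∈ T'.image Prod.fst, (((T'.filter fun p => p.1 = a).card : ℕ) : ℝ) ≤
        2 ^ (A \ A₁).card * (2 * C * (((B : ℝ) ^ 3) ^ Module.finrank ℚ F / (NA A₁ * PA (A \ A₁)))) := by
      intro a ha
      obtain ⟨p₀, hp₀, rfl⟩ := Finset.mem_image.1 ha
      obtain ⟨i1, i2, i3⟩ := hT1 p₀ hp₀
      rw [hfib]
      refine fib hC hP A₁ (A \ A₁) Finset.disjoint_sdiff (fun v hv => h6 v (Finset.mem_sdiff.1 hv).1) p₀.1 i3 _ _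
        (by positivity) (hle2.trans (hN.trans e3)) fun b hb => ?_
      obtain ⟨p, hp, rfl⟩ := Finset.mem_image.1 hb
      obtain ⟨hp1, hp2⟩ := Finset.mem_filter.1 hp
      obtain ⟨j1, j2, j3⟩ := hT1 p hp1
      obtain ⟨k1, k2, k3⟩ := hT p j1
      refine ⟨k2, fun v hv => ?_, fun v hv => ?_⟩
      · exact bmem (h6 v (hA₁ hv)) (j2 v hv) (k3 v (hA₁ hv))
      · rw [← hp2]
        exact k3 v (Finset.mem_sdiff.1 hv).1
    have hc2 : (T'.card : ℝ) = ∑ a ∈ T'.image Prod.fst, (((T'.filter fun p => p.1 = a).card : ℕ) : ℝ) := by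
      rw [hc1]
      push_cast
      rfl
    rw [hc2]
    refine (Finset.sum_le_card_nsmul _ _ _ hsnd).trans ?_
    rw [nsmul_eq_mul]
    have e5 : (B : ℝ) ^ (5 * Module.finrank ℚ F) =
        ((B : ℝ) ^ 2) ^ Module.finrank ℚ F * ((B : ℝ) ^ 3) ^ Module.finrank ℚ F := by ring
    calc ((T'.image Prod.fst).card : ℝ) *
          (2 ^ (A \ A₁).card * (2 * C * (((B : ℝ) ^ 3) ^ Module.finrank ℚ F / (NA A₁ * PA (A \ A₁)))))
        ≤ (2 * C * (((B : ℝ) ^ 2) ^ Module.finrank ℚ F / NA A₁)) *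
          (2 ^ A.card * (2 * C * (((B : ℝ) ^ 3) ^ Module.finrank ℚ F / (NA A₁ * PA (A \ A₁))))) := by
          refine mul_le_mul hfst ?_ (by positivity) (by positivity)
          refine mul_le_mul_of_nonneg_right ?_ (by positivity)
          exact pow_le_pow_right₀ (by norm_num) (Finset.card_le_card Finset.sdiff_subset)
      _ = 2 ^ A.card * (4 * C ^ 2 * (B : ℝ) ^ (5 * Module.finrank ℚ F) / PA A) := by
          rw [e5, ← hsplit]
          field_simp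
          ring
  have h1 : (T.card : ℝ) = ∑ A₁ ∈ A.powerset, (((T.filter fun p => g p = A₁).card : ℕ) : ℝ) := by
    rw [hcard]
    push_cast
    rfl
  rw [h1]
  refine (Finset.sum_le_card_nsmul _ _ _ hone).trans ?_
  rw [Finset.card_powerset, nsmul_eq_mul]
  push_cast
  have e4 : (4 : ℝ) ^ A.card = 2 ^ A.card * 2 ^ A.card := by
    rw [← mul_pow]
    norm_num
  rw [e4]
  exact le_of_eq (by ring)

/-- DI2 -/
theorem di2 : S_DI2 := by
  intro F _ _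
  obtain ⟨-, C, hC, -, hP⟩ := Pool.Agent.N490.PF.pts F
  have hP : Pt F C := hP
  have h60 : (6 : 𝓞 F) ≠ 0 := by norm_num
  have hW := fin_mem h60
  have hsum := Pool.Agent.H691R3.nm_summable (K := F) (x := 2) (by norm_num)
  obtain ⟨Sg, hSg⟩ : ∃ Sg : ℝ, Sg = ∑' v : HeightOneSpectrum (𝓞 F),
      (Pool.Agent.H691R3.nm v : ℝ) ^ (-(2 : ℝ)) := ⟨_, rfl⟩
  have hnm : ∀ v : HeightOneSpectrum (𝓞 F), (Pool.Agent.H691R3.nm v : ℝ) ^ (-(2 : ℝ)) = (nv v ^ 2)⁻¹ := by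
    intro v
    rw [Real.rpow_neg (Nat.cast_nonneg _), Real.rpow_two]
    rfl
  obtain ⟨Z, hZ⟩ : ∃ Z : ℝ, Z = 2 ^ hW.toFinset.card * 64 * (4 * C ^ 2 * Real.exp (512 * Sg)) := ⟨_, rfl⟩
  refine ⟨⌈Z⌉₊, 32, by norm_num, fun B hB T hT => ⟨fun p hp => fin_sqd (hT p hp).2.2, ?_⟩⟩
  have hB1 : 1 ≤ B := by omega
  have hB' : (1 : ℝ) ≤ B := by exact_mod_cast hB1
  have hBB : (0 : ℝ) ≤ (B : ℝ) ^ (5 * Module.finrank ℚ F) := by positivity
  obtain ⟨V, hV⟩ : ∃ V : 𝓞 F × 𝓞 F → Finset (HeightOneSpectrum (𝓞 F)),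
      ∀ p ∈ T, ∀ v, v ∈ V p ↔ v ∈ SqD p.1 p.2 := by
    refine ⟨fun p => if h : p ∈ T then (fin_sqd (hT p h).2.2).toFinset else ∅, fun p hp v => ?_⟩
    beta_reduce
    rw [dif_pos hp, Set.Finite.mem_toFinset]
  have hVc : ∀ p ∈ T, (SqD p.1 p.2).ncard = (V p).card := by
    intro p hp
    rw [← Set.ncard_coe_finset]
    congr 1
    ext v
    rw [Finset.mem_coe, hV p hp]
  obtain ⟨U, hU⟩ : ∃ U : Finset (HeightOneSpectrum (𝓞 F)), U = (T.biUnion V).filter fun v =>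
      (6 : 𝓞 F) ∉ v.asIdeal := ⟨_, rfl⟩
  obtain ⟨𝒜, h𝒜⟩ : ∃ 𝒜 : Finset (Finset (HeightOneSpectrum (𝓞 F))), 𝒜 = U.powerset.filter fun A =>
      PA A ≤ (B : ℝ) ^ Module.finrank ℚ F := ⟨_, rfl⟩
  have hone : ∀ p ∈ T, ((2 : ℝ) ^ (V p).card) ≤ 2 ^ hW.toFinset.card * 64 *
      ∑ A ∈ 𝒜, (if A ⊆ V p then (128 : ℝ) ^ A.card else 0) := by
    intro p hp
    obtain ⟨hp1, hp2, hp3⟩ := hT p hp
    obtain ⟨S, hS⟩ : ∃ S : Finset (HeightOneSpectrum (𝓞 F)), S = (V p).filter fun v => (6 : 𝓞 F) ∉ v.asIdeal :=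
      ⟨_, rfl⟩
    have hSV : S ⊆ V p := by rw [hS]; exact Finset.filter_subset _ _
    have hSU : S ⊆ U := by
      intro v hv
      rw [hS, Finset.mem_filter] at hv
      rw [hU, Finset.mem_filter, Finset.mem_biUnion]
      exact ⟨⟨p, hp, hv.1⟩, hv.2⟩
    have hcard : (V p).card ≤ S.card + hW.toFinset.card := by
      have hsub : V p ⊆ S ∪ hW.toFinset := by
        intro v hv
        rw [Finset.mem_union, hS, Finset.mem_filter, Set.Finite.mem_toFinset]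
        by_cases h : (6 : 𝓞 F) ∈ v.asIdeal
        · exact Or.inr h
        · exact Or.inl ⟨hv, h⟩
      exact (Finset.card_le_card hsub).trans (Finset.card_union_le _ _)
    obtain ⟨A, hA1, hA2, hA3⟩ := sel hp3 B hB hp1 hp2 S fun v hv => (hV p hp v).1 (hSV hv)
    have hA4 : A ∈ 𝒜 := by
      rw [h𝒜, Finset.mem_filter, Finset.mem_powerset]
      exact ⟨hA1.trans hSU, hA3⟩
    have h1 : (128 : ℝ) ^ A.card ≤ ∑ A ∈ 𝒜, (if A ⊆ V p then (128 : ℝ) ^ A.card else 0) := by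
      refine le_trans (le_of_eq ?_) (Finset.single_le_sum (f := fun A => if A ⊆ V p then (128 : ℝ) ^ A.card else 0)
        (fun _ _ => by positivity) hA4)
      beta_reduce
      rw [if_pos (hA1.trans hSV)]
    have h2 : (2 : ℝ) ^ S.card ≤ 64 * 128 ^ A.card := by
      have e1 : (64 : ℝ) * 128 ^ A.card = 2 ^ (6 + 7 * A.card) := by
        rw [pow_add, pow_mul]
        norm_num
      rw [e1]
      refine pow_le_pow_right₀ (by norm_num) ?_
      omega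
    calc (2 : ℝ) ^ (V p).card ≤ 2 ^ (S.card + hW.toFinset.card) := pow_le_pow_right₀ (by norm_num) hcard
      _ = 2 ^ hW.toFinset.card * 2 ^ S.card := by rw [pow_add]; ring
      _ ≤ 2 ^ hW.toFinset.card * (64 * 128 ^ A.card) := mul_le_mul_of_nonneg_left h2 (by positivity)
      _ ≤ 2 ^ hW.toFinset.card * (64 * ∑ A ∈ 𝒜, (if A ⊆ V p then (128 : ℝ) ^ A.card else 0)) :=
          mul_le_mul_of_nonneg_left (mul_le_mul_of_nonneg_left h1 (by norm_num)) (by positivity)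
      _ = _ := by ring
  have hcount : ∀ A ∈ 𝒜, ∑ p ∈ T, (if A ⊆ V p then (128 : ℝ) ^ A.card else 0) ≤
      4 * C ^ 2 * (B : ℝ) ^ (5 * Module.finrank ℚ F) * ∏ v ∈ A, 512 * (nv v ^ 2)⁻¹ := by
    intro A hA
    rw [h𝒜, Finset.mem_filter, Finset.mem_powerset] at hA
    obtain ⟨hAU, hAN⟩ := hA
    have h1 : ∑ p ∈ T, (if A ⊆ V p then (128 : ℝ) ^ A.card else 0) =
        ((T.filter fun p => A ⊆ V p).card : ℝ) * 128 ^ A.card := by
      rw [Finset.sum_ite, Finset.sum_const_zero, add_zero, Finset.sum_const, nsmul_eq_mul]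
    have h2 := cntA hC hP A (fun v hv => by
      have := hAU hv
      rw [hU, Finset.mem_filter] at this
      exact this.2) B hB1 hAN (T.filter fun p => A ⊆ V p) (fun p hp => by
        obtain ⟨i1, i2⟩ := Finset.mem_filter.1 hp
        exact ⟨(hT p i1).1, (hT p i1).2.1, fun v hv => (hV p i1 v).1 (i2 hv)⟩)
    rw [h1]
    refine (mul_le_mul_of_nonneg_right h2 (by positivity)).trans (le_of_eq ?_)
    rw [Finset.prod_mul_distrib, Finset.prod_const, Finset.prod_inv_distrib]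
    change _ = 4 * C ^ 2 * (B : ℝ) ^ (5 * Module.finrank ℚ F) * (512 ^ A.card * (PA A)⁻¹)
    have e1 : (512 : ℝ) ^ A.card = 4 ^ A.card * 128 ^ A.card := by
      rw [← mul_pow]
      norm_num
    rw [e1]
    ring
  have hprod : ∑ A ∈ 𝒜, ∏ v ∈ A, 512 * (nv v ^ 2)⁻¹ ≤ Real.exp (512 * Sg) := by
    calc ∑ A ∈ 𝒜, ∏ v ∈ A, 512 * (nv v ^ 2)⁻¹ ≤ ∑ A ∈ U.powerset, ∏ v ∈ A, 512 * (nv v ^ 2)⁻¹ := by
          refine Finset.sum_le_sum_of_subset_of_nonneg (by rw [h𝒜]; exact Finset.filter_subset _ _) fun A _ _ => ?_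
          exact Finset.prod_nonneg fun v _ => by positivity
      _ = ∏ v ∈ U, (1 + 512 * (nv v ^ 2)⁻¹) := (Finset.prod_one_add _).symm
      _ ≤ ∏ v ∈ U, Real.exp (512 * (nv v ^ 2)⁻¹) := by
          refine Finset.prod_le_prod (fun v _ => by positivity) fun v _ => ?_
          rw [add_comm]
          exact Real.add_one_le_exp _
      _ = Real.exp (512 * ∑ v ∈ U, (nv v ^ 2)⁻¹) := by rw [← Real.exp_sum, Finset.mul_sum]
      _ ≤ Real.exp (512 * Sg) := by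
          refine Real.exp_le_exp.2 (mul_le_mul_of_nonneg_left ?_ (by norm_num))
          rw [hSg]
          refine le_trans (le_of_eq ?_) (hsum.sum_le_tsum U fun v _ => by positivity)
          exact Finset.sum_congr rfl fun v _ => (hnm v).symm
  have htot : ((∑ p ∈ T, 2 ^ (SqD p.1 p.2).ncard : ℕ) : ℝ) ≤ Z * (B : ℝ) ^ (5 * Module.finrank ℚ F) := by
    have e0 : ∑ p ∈ T, 2 ^ (SqD p.1 p.2).ncard = ∑ p ∈ T, 2 ^ (V p).card :=
      Finset.sum_congr rfl fun p hp => by rw [hVc p hp]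
    rw [e0]
    push_cast
    refine (Finset.sum_le_sum hone).trans ?_
    rw [← Finset.mul_sum, Finset.sum_comm]
    have h1 : ∑ A ∈ 𝒜, ∑ p ∈ T, (if A ⊆ V p then (128 : ℝ) ^ A.card else 0) ≤
        4 * C ^ 2 * (B : ℝ) ^ (5 * Module.finrank ℚ F) * Real.exp (512 * Sg) := by
      refine (Finset.sum_le_sum hcount).trans ?_
      rw [← Finset.mul_sum]
      exact mul_le_mul_of_nonneg_left hprod (by positivity)
    refine (mul_le_mul_of_nonneg_left h1 (by positivity)).trans (le_of_eq ?_)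
    rw [hZ]
    ring
  have hceil := Nat.le_ceil Z
  have hfin : ((∑ p ∈ T, 2 ^ (SqD p.1 p.2).ncard : ℕ) : ℝ) ≤
      ((⌈Z⌉₊ * B ^ (5 * Module.finrank ℚ F) : ℕ) : ℝ) := by
    refine htot.trans ?_
    push_cast
    exact mul_le_mul_of_nonneg_right hceil hBB
  exact_mod_cast hfin

end Pool.Agent.P8H53.EK
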